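import Pool.Agent.Results.MP_8604ae_co.ExtremePoints
import Pool.Agent.Y786.EP.Count

set_option autoImplicit false

/-!
# MP_8604ae_co: the polytope of the Laplacian spectra

For every `n ≥ 1` the polytope `P_n = conv {λ(G) : G a graph on n vertices}`:
* its extreme points are the Laplacian spectra (= conjugate degree sequences) of the threshold
  graphs, there are exactly `2 ^ (n - 1)` of them, and each of them is the Laplacian spectrum of
  exactly one graph up to isomorphism;
* it is described by explicit linear inequalities, the two-parameter Brouwer inequalities;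
* it contains the Laplacian spectra of all weighted graphs with weights in `[0,1]`.
-/

namespace Pool.Agent.Results.MP_8604ae_co.SpectraPolytope

open scoped BigOperators

/-- The eigenvalues of a Hermitian matrix `L` with rows and columns `Fin n`, listed with
multiplicity in nonincreasing order (Mathlib's `eigenvalues₀`). -/
noncomputable def spec {n : ℕ} {L : Matrix (Fin n) (Fin n) ℝ} (hL : L.IsHermitian) : Fin n → ℝ :=
  fun k => hL.eigenvalues₀ (Fin.cast (Fintype.card_fin n).symm k)

/-- `λ(G) ∈ ℝⁿ`: the eigenvalues of the Laplacian `L(G) = D - A` of the graph `G` with vertex set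
`Fin n`, listed with multiplicity in nonincreasing order. -/
noncomputable def lam {n : ℕ} (G : SimpleGraph (Fin n)) : Fin n → ℝ := by
  classical
  exact spec (G.isHermitian_lapMatrix ℝ)

/-- `P_n`: the convex hull of the vectors `λ(G)`, `G` a graph with vertex set `Fin n`. -/
noncomputable def P (n : ℕ) : Set (Fin n → ℝ) :=
  convexHull ℝ (Set.range (lam (n := n)))

/-- Threshold graphs: the vertices can be ordered `σ 0, σ 1, …` such that every `σ j` is adjacent
to all earlier vertices (`b j`) or to none of them (`¬ b j`), i.e. the graph is built from a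
single vertex by repeatedly adding an isolated vertex or a vertex adjacent to all earlier ones. -/
def IsThreshold {n : ℕ} (G : SimpleGraph (Fin n)) : Prop :=
  ∃ (σ : Equiv.Perm (Fin n)) (b : Fin n → Prop),
    ∀ i j : Fin n, i < j → (G.Adj (σ i) (σ j) ↔ b j)

/-- `d*`: the conjugate of the degree sequence, `d*_{k+1} = #{v : deg v ≥ k + 1}` in coordinate
`k : Fin n`. -/
noncomputable def conjDeg {n : ℕ} (G : SimpleGraph (Fin n)) : Fin n → ℝ := by
  classical
  exact fun k => ((Finset.univ.filter (fun v : Fin n => (k : ℕ) + 1 ≤ G.degree v)).card : ℝ)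

/-- `x_1 + … + x_i`, the sum of the first `i` coordinates of `x ∈ ℝⁿ`. -/
noncomputable def psum {n : ℕ} (x : Fin n → ℝ) (i : ℕ) : ℝ :=
  ∑ a : Fin n, if (a : ℕ) < i then x a else 0

/-- **The polytope of the Laplacian spectra.** For every `n ≥ 1`:
(1) `λ(G)` is an extreme point of `P_n` if and only if `G` is a threshold graph;
(2) the set of extreme points of `P_n` is the set of the vectors `λ(G)`, `G` threshold;
(3) it is the set of conjugate degree sequences of threshold graphs, and `λ(G) = d*(G)` for every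
threshold graph `G`;
(4) `P_n` has exactly `2 ^ (n - 1)` extreme points;
(5) if `G` is threshold and `λ(H) = λ(G)` then `H` is isomorphic to `G`;
(6) `P_n` is the set of all `x ∈ ℝⁿ` with `x_1 ≥ … ≥ x_n = 0` and
`(x_1 + … + x_i) + (x_1 + … + x_j) ≤ (x_1 + … + x_n) + i (j + 1)` for all `0 ≤ i ≤ j < n`;
(7) if `W` is a symmetric matrix with zero diagonal and entries in `[0,1]`, then the spectrum of
the weighted Laplacian `D - W` (`D` the diagonal matrix of the row sums) lies in `P_n`. -/
theorem result (n : ℕ) (hn : 1 ≤ n) :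
    (∀ G : SimpleGraph (Fin n), lam G ∈ (P n).extremePoints ℝ ↔ IsThreshold G) ∧
    (P n).extremePoints ℝ = {x | ∃ G : SimpleGraph (Fin n), IsThreshold G ∧ x = lam G} ∧
    (P n).extremePoints ℝ = {x | ∃ G : SimpleGraph (Fin n), IsThreshold G ∧ x = conjDeg G} ∧
    (∀ G : SimpleGraph (Fin n), IsThreshold G → lam G = conjDeg G) ∧
    ((P n).extremePoints ℝ).ncard = 2 ^ (n - 1) ∧
    (∀ G H : SimpleGraph (Fin n), IsThreshold G → lam H = lam G → Nonempty (H ≃g G)) ∧
    P n = {x | Antitone x ∧ (∀ k : Fin n, (k : ℕ) + 1 = n → x k = 0) ∧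
      ∀ i j : ℕ, i ≤ j → j < n → psum x i + psum x j ≤ (∑ a, x a) + (i : ℝ) * ((j : ℝ) + 1)} ∧
    (∀ W : Matrix (Fin n) (Fin n) ℝ, W.IsSymm → (∀ i, W i i = 0) →
      (∀ i j, 0 ≤ W i j ∧ W i j ≤ 1) →
      ∀ hL : (Matrix.diagonal (fun i => ∑ j, W i j) - W).IsHermitian, spec hL ∈ P n) := by
  obtain ⟨h1, h2, h3, h4⟩ := Pool.Agent.Results.MP_8604ae_co.ExtremePoints.result n hn
  have hcd : ∀ G : SimpleGraph (Fin n),
      conjDeg G = fun k : Fin n => (Pool.Agent.Y786.EP.cd G (k : ℕ) : ℝ) := by
    classical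
    intro G
    funext k
    unfold conjDeg Pool.Agent.Y786.EP.cd Pool.Agent.Y786.EP.nbh
    congr 1
    refine congrArg Finset.card (Finset.filter_congr fun v _ => ?_)
    rw [← SimpleGraph.card_neighborFinset_eq_degree, SimpleGraph.neighborFinset_eq_filter]
  refine ⟨h1, h2, h3, h4, ?_, ?_, Pool.Agent.Y786.EP.P_eq_ineq n hn, ?_⟩
  · obtain ⟨N, rfl⟩ : ∃ N, n = N + 1 := ⟨n - 1, by omega⟩
    have h5 := Pool.Agent.Y786.EP.ncard_threshold N
    have h6 : (P (N + 1)).extremePoints ℝ =
        {x : Fin (N + 1) → ℝ | ∃ G : SimpleGraph (Fin (N + 1)),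
          Pool.Agent.Helper93.EP.IsThreshold G ∧
          x = fun k : Fin (N + 1) => (Pool.Agent.Y786.EP.cd G (k : ℕ) : ℝ)} := by
      refine Eq.trans h3 ?_
      ext x
      constructor
      · rintro ⟨G, hG, he⟩
        exact ⟨G, hG, Eq.trans he (hcd G)⟩
      · rintro ⟨G, hG, he⟩
        exact ⟨G, hG, Eq.trans he (hcd G).symm⟩
    rw [h6, h5, Nat.add_sub_cancel]
  · obtain ⟨N, rfl⟩ : ∃ N, n = N + 1 := ⟨n - 1, by omega⟩
    intro G H hG hHG
    have hH : IsThreshold H := by
      refine (h1 H).1 ?_
      have h5 : lam G ∈ (P (N + 1)).extremePoints ℝ := (h1 G).2 hG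
      rw [← hHG] at h5
      exact h5
    refine Pool.Agent.Y786.EP.iso_of_cd H G hH hG ?_
    have h5 : conjDeg H = conjDeg G := ((h4 H hH).symm.trans hHG).trans (h4 G hG)
    rw [hcd, hcd] at h5
    intro k
    have h6 := congrFun h5 k
    simp only [Nat.cast_inj] at h6
    exact h6
  · intro W hW hd h01 hL
    exact Pool.Agent.Y786.EP.spec_mem hn W hW hd (fun i j => (h01 i j).1) (fun i j => (h01 i j).2) hL

end Pool.Agent.Results.MP_8604ae_co.SpectraPolytope
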